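import Mathlib

namespace Pool.Agent.H.MP_f6eb76_al
universe u

theorem fib {A₁ A₂ D Z : Type u} [Infinite Z] (f₁ : A₁ → D) (f₂ : A₂ → D)
    (h₁ : Function.Surjective f₁) (h₂ : Function.Surjective f₂)
    (c₁ : Cardinal.mk A₁ ≤ Cardinal.mk Z) (c₂ : Cardinal.mk A₂ ≤ Cardinal.mk Z) :
    ∃ e : A₁ × Z ≃ A₂ × Z, ∀ x, f₂ (e x).1 = f₁ x.1 := by
  have key : ∀ (A : Type u) (f : A → D), Function.Surjective f → Cardinal.mk A ≤ Cardinal.mk Z →
      ∀ d, Cardinal.mk {x : A × Z // f x.1 = d} = Cardinal.mk Z := by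
    intro A f hf hc d
    rw [Cardinal.mk_congr (Equiv.prodSubtypeFstEquivSubtypeProd (p := fun a => f a = d)),
      Cardinal.mk_prod, Cardinal.lift_id, Cardinal.lift_id]
    apply Cardinal.mul_eq_right (Cardinal.aleph0_le_mk Z) ((Cardinal.mk_subtype_le _).trans hc)
    rw [Cardinal.mk_ne_zero_iff]
    obtain ⟨a, ha⟩ := hf d
    exact ⟨⟨a, ha⟩⟩
  let E : ∀ d, {x : A₁ × Z // f₁ x.1 = d} ≃ {x : A₂ × Z // f₂ x.1 = d} :=
    fun d => Classical.choice (Cardinal.eq.mp ((key _ f₁ h₁ c₁ d).trans (key _ f₂ h₂ c₂ d).symm))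
  exact ⟨Equiv.ofFiberEquiv E, fun x => Equiv.ofFiberEquiv_map E x⟩

theorem cos_bij {G H : Type u} [Group G] [Group H] (b : H →* G) (hb : Function.Injective b) :
    Function.Bijective (fun x : (G ⧸ b.range) × H => x.1.out * (b x.2)⁻¹) := by
  constructor
  · rintro ⟨q, h⟩ ⟨q', h'⟩ e
    simp only at e
    have h1 : ∀ (q : G ⧸ b.range) (h : H), ((q.out * (b h)⁻¹ : G) : G ⧸ b.range) = q := by
      intro q h
      rw [QuotientGroup.mk_mul_of_mem _ (b.range.inv_mem ⟨h, rfl⟩), QuotientGroup.out_eq']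
    obtain rfl : q = q' := by rw [← h1 q h, e, h1]
    rw [hb (inv_injective (mul_left_cancel e))]
  · intro g
    obtain ⟨⟨_, h, rfl⟩, hh⟩ := QuotientGroup.mk_out_eq_mul b.range g
    exact ⟨(g, h), by simp [hh]⟩

variable {K : Type u} [CommRing K]

structure Rp (K : Type u) [CommRing K] where
  G : Type u
  V : Type u
  [iG : Group G]
  [iV : AddCommGroup V]
  [iM : Module K V]
  ρ : Representation K G V

attribute [instance] Rp.iG Rp.iV Rp.iM

structure Good (R R' : Rp K) (β : R.G →* R'.G) (α : R.V →ₗ[K] R'.V) : Prop where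
  hβ : Function.Injective β
  hα : Function.Injective α
  eqv : ∀ g v, α (R.ρ g v) = R'.ρ (β g) (α v)
  ext : ∀ (H W : Type u) [Group H] [AddCommGroup W] [Module K W] (b₁ b₂ : H →* R.G)
    (a₁ a₂ : W →ₗ[K] R.V), Function.Injective b₁ → Function.Injective b₂ →
    Function.Injective a₁ → Function.Injective a₂ →
    (∀ h w, ∃ w', R.ρ (b₁ h) (a₁ w) = a₁ w' ∧ R.ρ (b₂ h) (a₂ w) = a₂ w') →
    ∃ t : R'.G, (∀ w, R'.ρ t (α (a₁ w)) = α (a₂ w)) ∧ ∀ h, t * β (b₁ h) * t⁻¹ = β (b₂ h)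

def permRep (X I : Type u) [AddCommGroup I] [Module K I] :
    Representation K (Equiv.Perm X) (X → I) where
  toFun σ := LinearMap.funLeft K I σ.symm
  map_one' := rfl
  map_mul' _ _ := rfl

theorem step (R : Rp K) : ∃ (R' : Rp K) (β : R.G →* R'.G) (α : R.V →ₗ[K] R'.V),
    Good R R' β α := by
  let I := CharacterModule K
  have hI : Module.Injective K I := Module.Flat.iff_characterModule_injective.mp inferInstance
  let Ω := R.V →ₗ[K] I
  let Z := (R.G × Ω) × ℕ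
  let X := R.G × Ω × Z
  let β : R.G →* Equiv.Perm X :=
    { toFun := fun g => Equiv.prodCongr (Equiv.mulRight g⁻¹) (Equiv.refl _)
      map_one' := by ext1 x; simp
      map_mul' := fun g h => by ext1 x; obtain ⟨a, b⟩ := x; simp [mul_assoc] }
  have hβ : ∀ g k y, β g (k, y) = (k * g⁻¹, y) := fun _ _ _ => rfl
  let α : R.V →ₗ[K] (X → I) := LinearMap.pi (fun x => x.2.1 ∘ₗ R.ρ x.1)
  have hα : ∀ v x, α v x = x.2.1 (R.ρ x.1 v) := fun _ _ => rfl
  refine ⟨⟨Equiv.Perm X, X → I, permRep X I⟩, β, α, ?_, ?_, ?_, ?_⟩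
  · intro g h e
    have := congrArg Prod.fst (DFunLike.congr_fun e (1, 0, (1, 0), 0))
    simpa [hβ] using this
  · rw [injective_iff_map_eq_zero]
    intro v hv
    by_contra hne
    obtain ⟨c, hc⟩ := CharacterModule.exists_character_apply_ne_zero_of_ne_zero hne
    have := congrFun hv (1, CharacterModule.homEquiv.symm
      (CharacterModule.dual (TensorProduct.rid K R.V).toLinearMap c), (1, 0), 0)
    rw [hα] at this
    have h2 := DFunLike.congr_fun this 1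
    apply hc
    have h3 : c ((1 : K) • R.ρ 1 v) = 0 := h2
    simpa using h3
  · intro g v
    ext1 ⟨k, y⟩
    show α (R.ρ g v) (k, y) = α v (k * g⁻¹⁻¹, y)
    simp [hα]
  · intro H W _ _ _ b₁ b₂ a₁ a₂ hb₁ hb₂ ha₁ ha₂ hc
    have sj : ∀ (b : H →* R.G) (a : W →ₗ[K] R.V), Function.Injective a → Function.Surjective
        (fun x : (R.G ⧸ b.range) × Ω => (x.2 ∘ₗ R.ρ x.1.out ∘ₗ a : W →ₗ[K] I)) := by
      intro b a ha d
      let q : R.G ⧸ b.range := ((1 : R.G) : R.G ⧸ b.range)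
      obtain ⟨ω, hω⟩ := hI.out (R.ρ q.out ∘ₗ a) ((R.ρ.apply_bijective q.out).1.comp ha) d
      exact ⟨(q, ω), LinearMap.ext hω⟩
    have cd : ∀ (b : H →* R.G), Cardinal.mk ((R.G ⧸ b.range) × Ω) ≤ Cardinal.mk Z := by
      intro b
      refine Cardinal.mk_le_of_injective (f := fun x => ((x.1.out, x.2), 0)) ?_
      rintro ⟨q, ω⟩ ⟨q', ω'⟩ e
      simp only [Z, Prod.mk.injEq, and_true] at e
      rw [Quotient.out_injective e.1, e.2]
    obtain ⟨e, he⟩ := fib _ _ (sj b₁ a₁ ha₁) (sj b₂ a₂ ha₂) (cd b₁) (cd b₂)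
    have mb : ∀ (b : H →* R.G), Function.Injective b → Function.Bijective
        (fun x : H × ((R.G ⧸ b.range) × Ω) × Z => ((x.2.1.1.out * (b x.1)⁻¹, x.2.1.2, x.2.2) : X)) := by
      intro b hb
      constructor
      · rintro ⟨h, ⟨q, ω⟩, z⟩ ⟨h', ⟨q', ω'⟩, z'⟩ e
        simp only [Prod.mk.injEq] at e
        have := (cos_bij b hb).1 (a₁ := (q, h)) (a₂ := (q', h')) e.1
        simp only [Prod.mk.injEq] at this
        rw [this.1, this.2, e.2.1, e.2.2]
      · rintro ⟨k, ω, z⟩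
        obtain ⟨⟨q, h⟩, rfl⟩ := (cos_bij b hb).2 k
        exact ⟨(h, (q, ω), z), rfl⟩
    let m₁ := Equiv.ofBijective _ (mb b₁ hb₁)
    let m₂ := Equiv.ofBijective _ (mb b₂ hb₂)
    let t : Equiv.Perm X := m₁.symm.trans ((Equiv.prodCongr (Equiv.refl H) e).trans m₂)
    have ht : ∀ h y, t (m₁ (h, y)) = m₂ (h, e y) := fun h y => by simp [t]
    refine ⟨t, fun w => ?_, fun h => ?_⟩
    · ext1 x
      obtain ⟨x, rfl⟩ := t.surjective x
      obtain ⟨⟨h, y⟩, rfl⟩ := m₁.surjective x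
      show α (a₁ w) (t.symm (t (m₁ (h, y)))) = α (a₂ w) (t (m₁ (h, y)))
      rw [Equiv.symm_apply_apply, ht]
      obtain ⟨w', h1, h2⟩ := hc h⁻¹ w
      have := DFunLike.congr_fun (he y) w'
      show y.1.2 (R.ρ (y.1.1.out * (b₁ h)⁻¹) (a₁ w)) =
        (e y).1.2 (R.ρ ((e y).1.1.out * (b₂ h)⁻¹) (a₂ w))
      rw [map_mul, map_mul, ← map_inv, ← map_inv, Module.End.mul_apply, Module.End.mul_apply,
        h1, h2]
      exact this.symm
    · rw [mul_inv_eq_iff_eq_mul]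
      ext1 x
      obtain ⟨⟨h', y⟩, rfl⟩ := m₁.surjective x
      have e1 : β (b₁ h) (m₁ (h', y)) = m₁ (h * h', y) := by simp [m₁, hβ, mul_assoc]
      have e2 : β (b₂ h) (m₂ (h', e y)) = m₂ (h * h', e y) := by simp [m₂, hβ, mul_assoc]
      show t (β (b₁ h) (m₁ (h', y))) = β (b₂ h) (t (m₁ (h', y)))
      rw [e1, ht, ht, e2]

end Pool.Agent.H.MP_f6eb76_al
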