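import Mathlib
import Pool.Agent.H.MP_f6eb76_al.Step

namespace Pool.Agent.H.MP_f6eb76_al
universe u

variable {K : Type u} [CommRing K]

noncomputable def sq (R : Rp K) : ℕ → Rp K
  | 0 => R
  | n + 1 => (step (sq R n)).choose

variable (R : Rp K)

noncomputable def bb (n : ℕ) : (sq R n).G →* (sq R (n + 1)).G := (step (sq R n)).choose_spec.choose
noncomputable def aa (n : ℕ) : (sq R n).V →ₗ[K] (sq R (n + 1)).V :=
  (step (sq R n)).choose_spec.choose_spec.choose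
theorem good (n : ℕ) : Good (sq R n) (sq R (n + 1)) (bb R n) (aa R n) :=
  (step (sq R n)).choose_spec.choose_spec.choose_spec

noncomputable def fG (n m : ℕ) (h : n ≤ m) : (sq R n).G →* (sq R m).G :=
  Nat.leRec (motive := fun m _ => (sq R n).G →* (sq R m).G) (MonoidHom.id _)
    (fun m _ ih => (bb R m).comp ih) h
noncomputable def fV (n m : ℕ) (h : n ≤ m) : (sq R n).V →ₗ[K] (sq R m).V :=
  Nat.leRec (motive := fun m _ => (sq R n).V →ₗ[K] (sq R m).V) LinearMap.id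
    (fun m _ ih => (aa R m).comp ih) h

theorem fG_self (n : ℕ) (x) : fG R n n le_rfl x = x := by rw [fG, Nat.leRec_self]; rfl
theorem fV_self (n : ℕ) (x) : fV R n n le_rfl x = x := by rw [fV, Nat.leRec_self]; rfl
theorem fG_succ (n m : ℕ) (h : n ≤ m) (h' : n ≤ m + 1) (x) :
    fG R n (m + 1) h' x = bb R m (fG R n m h x) := by rw [fG, Nat.leRec_succ _ _ h]; rfl
theorem fV_succ (n m : ℕ) (h : n ≤ m) (h' : n ≤ m + 1) (x) :
    fV R n (m + 1) h' x = aa R m (fV R n m h x) := by rw [fV, Nat.leRec_succ _ _ h]; rfl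

instance : DirectedSystem (fun n => (sq R n).G) (fG R · · ·) where
  map_self := fG_self R
  map_map k j i hij hjk x := by
    induction k, hjk using Nat.le_induction with
    | base => rw [fG_self]
    | succ k h ih => rw [fG_succ R j k h, ih, fG_succ R i k (hij.trans h)]

instance : DirectedSystem (fun n => (sq R n).V) (fV R · · ·) where
  map_self := fV_self R
  map_map k j i hij hjk x := by
    induction k, hjk using Nat.le_induction with
    | base => rw [fV_self]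
    | succ k h ih => rw [fV_succ R j k h, ih, fV_succ R i k (hij.trans h)]

theorem fG_inj (n m : ℕ) (h : n ≤ m) : Function.Injective (fG R n m h) := by
  induction m, h using Nat.le_induction with
  | base => intro x y e; rwa [fG_self, fG_self] at e
  | succ k h ih =>
    intro x y e
    rw [fG_succ R n k h, fG_succ R n k h] at e
    exact ih ((good R k).hβ e)

theorem fV_inj (n m : ℕ) (h : n ≤ m) : Function.Injective (fV R n m h) := by
  induction m, h using Nat.le_induction with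
  | base => intro x y e; rwa [fV_self, fV_self] at e
  | succ k h ih =>
    intro x y e
    rw [fV_succ R n k h, fV_succ R n k h] at e
    exact ih ((good R k).hα e)

theorem f_eqv (n m : ℕ) (h : n ≤ m) (g) (v) :
    fV R n m h ((sq R n).ρ g v) = (sq R m).ρ (fG R n m h g) (fV R n m h v) := by
  induction m, h using Nat.le_induction with
  | base => rw [fV_self, fV_self, fG_self]
  | succ k h ih => rw [fV_succ R n k h, fV_succ R n k h, fG_succ R n k h, ih, (good R k).eqv]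

abbrev GLim : Type u := DirectLimit (fun n => (sq R n).G) (fG R)
abbrev VL : Type u := DirectLimit (fun n => (sq R n).V) (fV R)

noncomputable def jG (n : ℕ) : (sq R n).G →* GLim R :=
  MonoidHom.mk' (fun x => ⟦⟨n, x⟩⟧) (fun _ _ => (DirectLimit.mul_def ..).symm)
noncomputable def jV (n : ℕ) : (sq R n).V →ₗ[K] VL R := DirectLimit.Module.of K ℕ _ (fV R) n

theorem jG_f (n m : ℕ) (h : n ≤ m) (x) : jG R m (fG R n m h x) = jG R n x :=
  DirectLimit.mk_apply ..
theorem jV_f (n m : ℕ) (h : n ≤ m) (x) : jV R m (fV R n m h x) = jV R n x :=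
  DirectLimit.mk_apply ..
theorem jG_b (n : ℕ) (x) : jG R (n + 1) (bb R n x) = jG R n x := by
  rw [← jG_f R n (n + 1) (Nat.le_succ n), fG_succ R n n le_rfl, fG_self]
theorem jV_a (n : ℕ) (x) : jV R (n + 1) (aa R n x) = jV R n x := by
  rw [← jV_f R n (n + 1) (Nat.le_succ n), fV_succ R n n le_rfl, fV_self]
theorem jG_inj (n : ℕ) : Function.Injective (jG R n) := DirectLimit.mk_injective _ (fG_inj R) n
theorem jV_inj (n : ℕ) : Function.Injective (jV R n) := DirectLimit.mk_injective _ (fV_inj R) n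

theorem exG (g : GLim R) : ∃ n, ∀ m, n ≤ m → ∃ x, jG R m x = g := by
  obtain ⟨n, x, rfl⟩ := DirectLimit.exists_eq_mk _ g
  exact ⟨n, fun m h => ⟨_, jG_f R n m h x⟩⟩
theorem exV (v : VL R) : ∃ n, ∀ m, n ≤ m → ∃ x, jV R m x = v := by
  obtain ⟨n, x, rfl⟩ := DirectLimit.exists_eq_mk _ v
  exact ⟨n, fun m h => ⟨_, jV_f R n m h x⟩⟩

noncomputable def act : GLim R → VL R → VL R :=
  DirectLimit.map₂ (fG R) (fV R) (fV R) (fun n g v => (sq R n).ρ g v) (f_eqv R)

theorem act_j (n : ℕ) (g) (v) : act R (jG R n g) (jV R n v) = jV R n ((sq R n).ρ g v) :=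
  DirectLimit.map₂_def ..

theorem ex4 (g h : GLim R) (v w : VL R) : ∃ n a b x y, jG R n a = g ∧ jG R n b = h ∧
    jV R n x = v ∧ jV R n y = w := by
  obtain ⟨n1, h1⟩ := exG R g
  obtain ⟨n2, h2⟩ := exG R h
  obtain ⟨n3, h3⟩ := exV R v
  obtain ⟨n4, h4⟩ := exV R w
  obtain ⟨a, ha⟩ := h1 (n1 + n2 + n3 + n4) (by omega)
  obtain ⟨b, hb⟩ := h2 (n1 + n2 + n3 + n4) (by omega)
  obtain ⟨x, hx⟩ := h3 (n1 + n2 + n3 + n4) (by omega)
  obtain ⟨y, hy⟩ := h4 (n1 + n2 + n3 + n4) (by omega)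
  exact ⟨_, a, b, x, y, ha, hb, hx, hy⟩

noncomputable def actL (g : GLim R) : VL R →ₗ[K] VL R where
  toFun := act R g
  map_add' := fun v w => by
    obtain ⟨n, a, -, x, y, rfl, -, rfl, rfl⟩ := ex4 R g g v w
    rw [← map_add, act_j, act_j, act_j, map_add, map_add]
  map_smul' := fun c v => by
    obtain ⟨n, a, -, x, -, rfl, -, rfl, -⟩ := ex4 R g g v v
    rw [← map_smul, act_j, act_j, map_smul, map_smul, RingHom.id_apply]

theorem actL_j (n : ℕ) (g) (v) : actL R (jG R n g) (jV R n v) = jV R n ((sq R n).ρ g v) :=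
  act_j R n g v

noncomputable def rhoL : Representation K (GLim R) (VL R) :=
  MonoidHom.mk (OneHom.mk (actL R) (LinearMap.ext fun v => by
    obtain ⟨n, -, -, x, -, -, -, rfl, -⟩ := ex4 R 1 1 v v
    rw [← map_one (jG R n), actL_j, map_one]
    rfl))
  (fun g h => LinearMap.ext fun v => by
    obtain ⟨n, a, b, x, -, rfl, rfl, rfl, -⟩ := ex4 R g h v v
    simp only [Module.End.mul_apply]
    rw [← map_mul, actL_j, actL_j, actL_j, map_mul]
    rfl)

theorem rho_j (n : ℕ) (g) (v) : rhoL R (jG R n g) (jV R n v) = jV R n ((sq R n).ρ g v) :=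
  act_j R n g v

theorem fgG (H : Subgroup (GLim R)) (hH : H.FG) : ∃ n, ∀ m, n ≤ m → H ≤ (jG R m).range := by
  obtain ⟨s, rfl⟩ := hH
  choose N hN using exG R
  refine ⟨s.sup N, fun m h => (Subgroup.closure_le _).mpr (fun g hg => ?_)⟩
  exact hN g m ((Finset.le_sup hg).trans h)

theorem fgV (H : Subgroup (GLim R)) (hH : H.FG) (s : Finset (VL R)) : ∃ n, ∀ m, n ≤ m →
    Submodule.span K {x | ∃ h ∈ H, ∃ v ∈ s, x = rhoL R h v} ≤ (jV R m).range := by
  obtain ⟨n, hn⟩ := fgG R H hH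
  choose N hN using exV R
  refine ⟨max n (s.sup N), fun m h => Submodule.span_le.mpr ?_⟩
  rintro _ ⟨g, hg, v, hv, rfl⟩
  obtain ⟨a, rfl⟩ := hn m (le_of_max_le_left h) hg
  obtain ⟨x, rfl⟩ := hN v m ((Finset.le_sup hv).trans (le_of_max_le_right h))
  exact ⟨_, (rho_j R m a x).symm⟩

theorem liftG {A B H : Type u} [Group A] [Group B] [Group H] (j : A →* B)
    (hj : Function.Injective j) (φ : H →* B) (h : ∀ x, φ x ∈ j.range) :
    ∃ ψ : H →* A, ∀ x, j (ψ x) = φ x := by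
  choose ψ hψ using h
  exact ⟨MonoidHom.mk' ψ (fun a b => hj (by rw [map_mul, hψ, hψ, hψ, map_mul])), hψ⟩

theorem liftV {A B W : Type u} [AddCommGroup A] [AddCommGroup B] [AddCommGroup W] [Module K A]
    [Module K B] [Module K W] (j : A →ₗ[K] B)
    (hj : Function.Injective j) (φ : W →ₗ[K] B) (h : ∀ x, φ x ∈ j.range) :
    ∃ ψ : W →ₗ[K] A, ∀ x, j (ψ x) = φ x := by
  choose ψ hψ using h
  exact ⟨⟨⟨ψ, fun a b => hj (by rw [map_add, hψ, hψ, hψ, map_add])⟩,
    fun c a => hj (by simp only [map_smul, hψ, RingHom.id_apply])⟩, hψ⟩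

theorem lim_ext (n : ℕ) (H W : Type u) [Group H] [AddCommGroup W] [Module K W]
    (b₁ b₂ : H →* GLim R) (a₁ a₂ : W →ₗ[K] VL R) (hb₁ : Function.Injective b₁)
    (hb₂ : Function.Injective b₂) (ha₁ : Function.Injective a₁) (ha₂ : Function.Injective a₂)
    (r₁ : ∀ x, b₁ x ∈ (jG R n).range) (r₂ : ∀ x, b₂ x ∈ (jG R n).range)
    (r₃ : ∀ x, a₁ x ∈ (jV R n).range) (r₄ : ∀ x, a₂ x ∈ (jV R n).range)
    (hc : ∀ h w, ∃ w', rhoL R (b₁ h) (a₁ w) = a₁ w' ∧ rhoL R (b₂ h) (a₂ w) = a₂ w') :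
    ∃ t : GLim R, (∀ w, rhoL R t (a₁ w) = a₂ w) ∧ ∀ h, t * b₁ h * t⁻¹ = b₂ h := by
  obtain ⟨c₁, h₁⟩ := liftG _ (jG_inj R n) b₁ r₁
  obtain ⟨c₂, h₂⟩ := liftG _ (jG_inj R n) b₂ r₂
  obtain ⟨d₁, h₃⟩ := liftV _ (jV_inj R n) a₁ r₃
  obtain ⟨d₂, h₄⟩ := liftV _ (jV_inj R n) a₂ r₄
  obtain ⟨t, t1, t2⟩ := (good R n).ext H W c₁ c₂ d₁ d₂
    (fun x y e => hb₁ (by rw [← h₁, e, h₁])) (fun x y e => hb₂ (by rw [← h₂, e, h₂]))
    (fun x y e => ha₁ (by rw [← h₃, e, h₃])) (fun x y e => ha₂ (by rw [← h₄, e, h₄]))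
    (fun h w => by
      obtain ⟨w', e1, e2⟩ := hc h w
      exact ⟨w', jV_inj R n (by rw [← rho_j, h₁, h₃, h₃, e1]),
        jV_inj R n (by rw [← rho_j, h₂, h₄, h₄, e2])⟩)
  refine ⟨jG R (n + 1) t, fun w => ?_, fun h => ?_⟩
  · rw [← h₃, ← h₄, ← jV_a, rho_j, t1, jV_a]
  · rw [← h₁, ← h₂, ← jG_b R n (c₁ h), ← jG_b R n (c₂ h), ← t2, map_mul, map_mul, map_inv]

end Pool.Agent.H.MP_f6eb76_al
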